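import Pool.Agent.H306R2.SM.Defs

set_option autoImplicit false

/-!
Task T6B (`EE_series`) of the sixth moment project of helper306.
-/

namespace Pool.Agent.H84R2.SM

open Pool.Agent.H306R2 Pool.Agent.H306R2.SM
open Finset Filter Topology MeasureTheory Complex

noncomputable section

/-- the L-series of a residue class -/
lemma single_series (h : ℕ) [NeZero h] (a : ZMod h) (s : ℂ) (hs : 1 < s.re) :
    LSeriesHasSum (fun n : ℕ => if (n : ZMod h) = a then (1 : ℂ) else 0) s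
      ((h : ℂ) ^ (-s) * HurwitzZeta.hurwitzZeta (ZMod.toAddCircle a) s) := by
  have h1 := (ZMod.LSeriesSummable_of_one_lt_re
    (fun j : ZMod h => if j = a then (1 : ℂ) else 0) hs).LSeriesHasSum
  rw [← ZMod.LFunction_eq_LSeries (fun j : ZMod h => if j = a then (1 : ℂ) else 0) hs] at h1
  have h2 : ZMod.LFunction (fun j : ZMod h => if j = a then (1 : ℂ) else 0) s =
      (h : ℂ) ^ (-s) * HurwitzZeta.hurwitzZeta (ZMod.toAddCircle a) s := by
    simp [ZMod.LFunction]
  rw [h2] at h1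
  exact h1

/-- T6B -/
theorem EE_series (h : ℕ) [NeZero h] (Φ : ZMod h → ZMod h → ZMod h → ℂ) (s : ℂ) (hs : 1 < s.re) :
    LSeriesHasSum (FF h Φ) s (EE h Φ s) := by
  classical
  have hh : (h : ℂ) ≠ 0 := by exact_mod_cast NeZero.ne h
  set dl : ZMod h → ℕ → ℂ := fun a n => if (n : ZMod h) = a then (1 : ℂ) else 0 with hdl
  have hsum : ∀ a b c : ZMod h, LSeriesHasSum (LSeries.convolution (dl a) (LSeries.convolution (dl b) (dl c))) s
      (((h : ℂ) ^ (-s) * HurwitzZeta.hurwitzZeta (ZMod.toAddCircle a) s) *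
        (((h : ℂ) ^ (-s) * HurwitzZeta.hurwitzZeta (ZMod.toAddCircle b) s) *
        ((h : ℂ) ^ (-s) * HurwitzZeta.hurwitzZeta (ZMod.toAddCircle c) s))) :=
    fun a b c => (single_series h a s hs).convolution
      ((single_series h b s hs).convolution (single_series h c s hs))
  have hall : LSeriesHasSum (∑ a : ZMod h, ∑ b : ZMod h, ∑ c : ZMod h,
      Φ a b c • (LSeries.convolution (dl a) (LSeries.convolution (dl b) (dl c)))) s (∑ a : ZMod h, ∑ b : ZMod h, ∑ c : ZMod h,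
      Φ a b c * (((h : ℂ) ^ (-s) * HurwitzZeta.hurwitzZeta (ZMod.toAddCircle a) s) *
        (((h : ℂ) ^ (-s) * HurwitzZeta.hurwitzZeta (ZMod.toAddCircle b) s) *
        ((h : ℂ) ^ (-s) * HurwitzZeta.hurwitzZeta (ZMod.toAddCircle c) s)))) := by
    refine LSeriesHasSum.sum fun a _ => LSeriesHasSum.sum fun b _ =>
      LSeriesHasSum.sum fun c _ => ?_
    exact (hsum a b c).smul (Φ a b c)
  have hval : (∑ a : ZMod h, ∑ b : ZMod h, ∑ c : ZMod h,
      Φ a b c * (((h : ℂ) ^ (-s) * HurwitzZeta.hurwitzZeta (ZMod.toAddCircle a) s) *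
        (((h : ℂ) ^ (-s) * HurwitzZeta.hurwitzZeta (ZMod.toAddCircle b) s) *
        ((h : ℂ) ^ (-s) * HurwitzZeta.hurwitzZeta (ZMod.toAddCircle c) s)))) = EE h Φ s := by
    unfold EE
    have hp : (h : ℂ) ^ (-(3 * s)) = (h : ℂ) ^ (-s) * ((h : ℂ) ^ (-s) * (h : ℂ) ^ (-s)) := by
      rw [← Complex.cpow_add _ _ hh, ← Complex.cpow_add _ _ hh]
      congr 1; ring
    rw [hp, Finset.mul_sum]
    refine Finset.sum_congr rfl fun a _ => ?_
    rw [Finset.mul_sum]
    refine Finset.sum_congr rfl fun b _ => ?_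
    rw [Finset.mul_sum]
    refine Finset.sum_congr rfl fun c _ => ?_
    ring
  rw [hval] at hall
  refine (LSeriesHasSum_congr s (EE h Φ s) ?_).mp hall
  intro n _
  have hconv : ∀ a b c : ZMod h, (LSeries.convolution (dl a) (LSeries.convolution (dl b) (dl c))) n =
      ∑ x ∈ n.divisorsAntidiagonal, ∑ y ∈ x.2.divisorsAntidiagonal,
        dl a x.1 * (dl b y.1 * dl c y.2) := by
    intro a b c
    simp only [LSeries.convolution_def, Finset.mul_sum]
  have hcomm : (∑ a : ZMod h, ∑ b : ZMod h, ∑ c : ZMod h,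
      Φ a b c • (LSeries.convolution (dl a) (LSeries.convolution (dl b) (dl c)))) n = ∑ a : ZMod h, ∑ b : ZMod h, ∑ c : ZMod h,
      ∑ x ∈ n.divisorsAntidiagonal, ∑ y ∈ x.2.divisorsAntidiagonal,
        Φ a b c * (dl a x.1 * (dl b y.1 * dl c y.2)) := by
    simp only [Finset.sum_apply, Pi.smul_apply, smul_eq_mul, hconv, Finset.mul_sum]
  rw [hcomm]
  unfold FF
  have e1 : ∀ a b : ZMod h, (∑ c : ZMod h, ∑ x ∈ n.divisorsAntidiagonal,
      ∑ y ∈ x.2.divisorsAntidiagonal, Φ a b c * (dl a x.1 * (dl b y.1 * dl c y.2))) =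
      ∑ x ∈ n.divisorsAntidiagonal, ∑ y ∈ x.2.divisorsAntidiagonal,
        Φ a b (y.2 : ZMod h) * (dl a x.1 * dl b y.1) := by
    intro a b
    rw [Finset.sum_comm]
    refine Finset.sum_congr rfl fun x _ => ?_
    rw [Finset.sum_comm]
    refine Finset.sum_congr rfl fun y _ => ?_
    simp only [hdl, mul_ite, mul_one, mul_zero, Finset.sum_ite_eq, Finset.mem_univ, if_true]
  have e2 : ∀ a : ZMod h, (∑ b : ZMod h, ∑ x ∈ n.divisorsAntidiagonal,
      ∑ y ∈ x.2.divisorsAntidiagonal, Φ a b (y.2 : ZMod h) * (dl a x.1 * dl b y.1)) =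
      ∑ x ∈ n.divisorsAntidiagonal, ∑ y ∈ x.2.divisorsAntidiagonal,
        Φ a (y.1 : ZMod h) (y.2 : ZMod h) * dl a x.1 := by
    intro a
    rw [Finset.sum_comm]
    refine Finset.sum_congr rfl fun x _ => ?_
    rw [Finset.sum_comm]
    refine Finset.sum_congr rfl fun y _ => ?_
    simp only [hdl, mul_ite, mul_one, mul_zero, Finset.sum_ite_eq, Finset.mem_univ, if_true]
  have e3 : (∑ a : ZMod h, ∑ x ∈ n.divisorsAntidiagonal,
      ∑ y ∈ x.2.divisorsAntidiagonal, Φ a (y.1 : ZMod h) (y.2 : ZMod h) * dl a x.1) =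
      ∑ x ∈ n.divisorsAntidiagonal, ∑ y ∈ x.2.divisorsAntidiagonal,
        Φ (x.1 : ZMod h) (y.1 : ZMod h) (y.2 : ZMod h) := by
    rw [Finset.sum_comm]
    refine Finset.sum_congr rfl fun x _ => ?_
    rw [Finset.sum_comm]
    refine Finset.sum_congr rfl fun y _ => ?_
    simp only [hdl, mul_ite, mul_one, mul_zero, Finset.sum_ite_eq, Finset.mem_univ, if_true]
  rw [← e3]
  refine Finset.sum_congr rfl fun a _ => ?_
  rw [← e2]
  refine Finset.sum_congr rfl fun b _ => ?_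
  rw [← e1]

end

end Pool.Agent.H84R2.SM
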