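import Pool.Agent.H306R2.SM.Defs

set_option autoImplicit false

/-!
Task T6E (`EE_entire`) of the sixth moment project of helper306.
-/

namespace Pool.Agent.H84R2.SM

open Pool.Agent.H306R2 Pool.Agent.H306R2.SM
open Finset Filter Topology MeasureTheory Complex

noncomputable section

/-- algebraic identity: with zero sums, a common shift of the values does not matter -/
lemma shift_sum (h : ℕ) [NeZero h] (Φ : ZMod h → ZMod h → ZMod h → ℂ) (hΦ : ZS h Φ)
    (R : ZMod h → ℂ) (G : ℂ) :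
    ∑ x : ZMod h, ∑ y : ZMod h, ∑ z : ZMod h, Φ x y z * ((R x + G) * (R y + G) * (R z + G)) =
      ∑ x : ZMod h, ∑ y : ZMod h, ∑ z : ZMod h, Φ x y z * (R x * R y * R z) := by
  obtain ⟨h1, h2, h3⟩ := hΦ
  have e1 : ∀ A B : ZMod h → ℂ, ∑ x : ZMod h, ∑ y : ZMod h, ∑ z : ZMod h,
      Φ x y z * (A x * B y * G) = 0 := by
    intro A B
    refine Finset.sum_eq_zero fun x _ => Finset.sum_eq_zero fun y _ => ?_
    rw [← Finset.sum_mul, h3, zero_mul]
  have e2 : ∀ A B : ZMod h → ℂ, ∑ x : ZMod h, ∑ y : ZMod h, ∑ z : ZMod h,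
      Φ x y z * (A x * G * B z) = 0 := by
    intro A B
    refine Finset.sum_eq_zero fun x _ => ?_
    rw [Finset.sum_comm]
    refine Finset.sum_eq_zero fun z _ => ?_
    rw [← Finset.sum_mul, h2, zero_mul]
  have e3 : ∀ A B : ZMod h → ℂ, ∑ x : ZMod h, ∑ y : ZMod h, ∑ z : ZMod h,
      Φ x y z * (G * A y * B z) = 0 := by
    intro A B
    rw [Finset.sum_comm]
    refine Finset.sum_eq_zero fun y _ => ?_
    rw [Finset.sum_comm]
    refine Finset.sum_eq_zero fun z _ => ?_
    rw [← Finset.sum_mul, h1, zero_mul]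
  have key : ∀ x y z : ZMod h, Φ x y z * ((R x + G) * (R y + G) * (R z + G)) =
      Φ x y z * (R x * R y * R z) + Φ x y z * ((R x + G) * (R y + G) * G) +
        Φ x y z * ((R x + G) * G * R z) + Φ x y z * (G * R y * R z) := by
    intro x y z; ring
  simp only [key, Finset.sum_add_distrib]
  rw [e1 (fun x => R x + G) (fun y => R y + G), e2 (fun x => R x + G) R, e3 R R]
  ring

/-- T6E -/
theorem EE_entire (h : ℕ) [NeZero h] (Φ : ZMod h → ZMod h → ZMod h → ℂ) (hΦ : ZS h Φ) :
    ∃ g : ℂ → ℂ, Differentiable ℂ g ∧ ∀ s : ℂ, s ≠ 1 → g s = EE h Φ s := by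
  have hh : (h : ℂ) ≠ 0 := by exact_mod_cast NeZero.ne h
  have hpow : Differentiable ℂ (fun s : ℂ => (h : ℂ) ^ (-(3 * s))) := by
    intro s
    refine DifferentiableAt.const_cpow (by fun_prop) (Or.inl hh)
  refine ⟨EE h Φ, ?_, fun s _ => rfl⟩
  intro s
  by_cases hs : s = 1
  · subst hs
    set R : ZMod h → ℂ → ℂ := fun x s =>
      HurwitzZeta.hurwitzZeta (ZMod.toAddCircle x) s - 1 / (s - 1) / Gammaℝ s with hR
    have hRd : ∀ x, DifferentiableAt ℂ (R x) 1 := fun x =>
      HurwitzZeta.differentiableAt_hurwitzZeta_sub_one_div _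
    have hEE : EE h Φ = fun s => (h : ℂ) ^ (-(3 * s)) * ∑ x : ZMod h, ∑ y : ZMod h,
        ∑ z : ZMod h, Φ x y z * (R x s * R y s * R z s) := by
      funext s
      have h0 := shift_sum h Φ hΦ (fun x => R x s) (1 / (s - 1) / Gammaℝ s)
      simp only [hR, sub_add_cancel] at h0
      simp only [EE, hR]
      rw [h0]
    rw [hEE]
    refine (hpow 1).mul ?_
    refine DifferentiableAt.fun_sum fun x _ => DifferentiableAt.fun_sum fun y _ =>
      DifferentiableAt.fun_sum fun z _ => ?_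
    exact (((hRd x).mul (hRd y)).mul (hRd z)).const_mul _
  · unfold EE
    refine (hpow s).mul ?_
    refine DifferentiableAt.fun_sum fun x _ => DifferentiableAt.fun_sum fun y _ =>
      DifferentiableAt.fun_sum fun z _ => ?_
    exact (((HurwitzZeta.differentiableAt_hurwitzZeta _ hs).mul
      (HurwitzZeta.differentiableAt_hurwitzZeta _ hs)).mul
      (HurwitzZeta.differentiableAt_hurwitzZeta _ hs)).const_mul _

end

end Pool.Agent.H84R2.SM
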